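import Mathlib
import Pool.Agent.H9.OrdHyp.Defs
import Pool.Agent.H9.OrdHyp.Example

/-!
# Moving one branch point need not reach an ordinary hyperelliptic curve

For every algebraically closed field `k` of characteristic `p > 2`, with `g = (3 p + 1) / 2` and
`Λ` the set of the `2 g = 3 p + 1` roots of `x ^ (3 p + 1) + 1`, the curve
`y ^ 2 = (x - μ) (x ^ (3 p + 1) + 1)` is non-ordinary for every `μ` outside `Λ`: the regular
differential `(x - μ) ^ ((p + 1) / 2) dx / y` is killed by the Cartier operator.
-/

namespace Pool.Agent.Results.MP_2ca583_ag.NeverOrdinaryMovingMu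

open Pool.Agent.H9.OrdHyp

/-- The negated form of Q1, for every algebraically closed field of characteristic `p > 2`: there
are `g ≥ 1` and a set `Λ` of `2 g` distinct elements of `k` such that, for every `μ` outside `Λ`,
the genus `g` curve `y ^ 2 = (x - μ) ∏_{l ∈ Λ} (x - l)` has `p`-rank less than `g` (and its
Cartier-Manin matrix is singular). -/
theorem result (p : ℕ) [Fact p.Prime] (hp : p ≠ 2) (k : Type*) [Field k] [IsAlgClosed k]
    [CharP k p] :
    ∃ (g : ℕ) (Λ : Finset k), 1 ≤ g ∧ Λ.card = 2 * g ∧ ∀ μ : k, μ ∉ Λ →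
      (∃ f < g, HasPRank p (branchPoly Λ μ) f) ∧ (cartierManin p g (branchPoly Λ μ)).det = 0 :=
  main p hp k

end Pool.Agent.Results.MP_2ca583_ag.NeverOrdinaryMovingMu
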